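import Pool.Agent.helper51.VF.SpecB

set_option autoImplicit false

namespace Pool.Agent.VF

open Pool.Agent.PC Pool.Agent.QS

universe u

theorem CAP : CAP_stmt.{u} := by
  intro R A F K _ _ _ _ _ _ _ _ _ _ _ _ _ _ _ _ _ f a hfa
  have ha : IsIntegral R a := Algebra.IsIntegral.isIntegral a
  have h1 : IsIntegral R (algebraMap A K a) := ha.algebraMap
  rw [← hfa] at h1
  have h2 : IsIntegral R f :=
    (isIntegral_algebraMap_iff (algebraMap F K).injective).1 h1
  obtain ⟨r, hr⟩ := IsIntegrallyClosed.isIntegral_iff.1 h2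
  refine ⟨r, IsFractionRing.injective A K ?_⟩
  rw [← IsScalarTower.algebraMap_apply R A K, IsScalarTower.algebraMap_apply R F K, hr, hfa]

end Pool.Agent.VF
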