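import Pool.Agent.helper51.VF.SpecB
import Pool.Agent.helper13.PC.ASA

/-!
# Row vf:GHF (MP_74cfa5_ag)
-/

set_option autoImplicit false

namespace Pool.Agent.VF

open Pool.Agent.PC Pool.Agent.QS

universe u

theorem GHF_eq {R : Type u} [CommRing R] (S P : Ideal R) (hS : S.IsPrime) (hP : P.IsPrime)
    (hS1 : S.height = 1) (hP1 : P.height = 1) (h : S ≤ P) : P = S := by
  by_contra hne
  have hlt : S < P := lt_of_le_of_ne h (fun e => hne e.symm)
  have := hS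
  have := hP
  have : S.FiniteHeight := ⟨Or.inr (by rw [hS1]; decide)⟩
  have h2 := Ideal.height_strict_mono_of_isPrime hlt
  rw [hS1, hP1] at h2
  exact lt_irrefl _ h2

theorem GHF_pow (R A F K : Type u) [CommRing R] [CommRing A] [Algebra R A] [Field F] [Field K]
    [Algebra R F] [Algebra A K] [IsFractionRing A K] [Algebra F K] [Algebra R K]
    [IsScalarTower R A K] [IsScalarTower R F K] (p : ℕ)
    (h : ∀ a : A, ∃ r : R, algebraMap R A r = a ^ p) (x : K) :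
    ∃ f : F, algebraMap F K f = x ^ p := by
  obtain ⟨a, s, -, hx⟩ := IsFractionRing.div_surjective (A := A) x
  obtain ⟨r, hr⟩ := h a
  obtain ⟨r', hr'⟩ := h s
  refine ⟨algebraMap R F r / algebraMap R F r', ?_⟩
  rw [map_div₀, ← IsScalarTower.algebraMap_apply R F K, ← IsScalarTower.algebraMap_apply R F K,
    IsScalarTower.algebraMap_apply R A K, IsScalarTower.algebraMap_apply R A K, hr, hr', map_pow,
    map_pow, ← div_pow, hx]

theorem GHF (hLRF : QS.LRF_stmt.{u}) (hEHF : EHF_stmt.{u}) (hETK : ETK_stmt.{u})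
    (hEIP : EIP_stmt.{u}) (hHOM : HOM_stmt.{u}) : GHF_stmt.{u} := by
  intro k R A F K _ _ _ _ _ _ _ _ _ _ _ _ _ _ _ _ _ _ _ _ _ _ _ _ _ _ _ _ n p _ _ hFol hn hfr
    D y hy δ T Ψ hT hΨ S B ω μ g hω hg hμ hB m hC Q v hQ hQ1 hQm hv hδ hδ2
  have hK : CharP K p := charP_of_injective_algebraMap (algebraMap k K).injective p
  have hp : p.Prime := Fact.out
  obtain ⟨-, hht, -, -⟩ := hHOM R A p hp.pos hFol.1
  have hP1 : (Q.comap (algebraMap R A)).height = 1 := (hht Q hQ).trans hQ1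
  have hPp : (Q.comap (algebraMap R A)).IsPrime := Ideal.comap_isPrime _ _
  have hPm : Q.comap (algebraMap R A) ≤ m.comap (algebraMap R A) := Ideal.comap_mono hQm
  obtain ⟨O, w, hO, hR⟩ := hLRF R A F K Q (Q.comap (algebraMap R A)) hQ rfl hP1 v hv
  have h1 := hETK k A F K p hFol.2 (GHF_pow R A F K p hFol.1) n D y hn hfr hy δ T Ψ hT hΨ Q hQ hδ hδ2
  have h2 : (1 : K) ∈ AddSubgroup.closure {z | ∃ o : K, Ge v 0 o ∧ ∃ c : Fin n → F, (∀ i, c i ∈ O) ∧
      z = o * Ψ (dd k c)} := by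
    refine AddSubgroup.closure_mono ?_ h1
    rintro z ⟨o, ho, c, hc, hz⟩
    refine ⟨o, (hv.2.1 o).2 ho, c, fun i => ?_, hz⟩
    exact (hR.1 _).2 ((hv.2.1 _).2 (hc i))
  obtain ⟨s, t, hs, ht, hst⟩ := hC (Q.comap (algebraMap R A)) O hPp hP1 hPm hO
  rw [add_assoc] at hst
  have hBP := hB.2.2.2.1 (Q.comap (algebraMap R A))
  have hΨ0 : Ψ ω ≠ 0 := fun h => hω (hΨ.2.1 ω h)
  have hg0 : algebraMap F K g ≠ 0 := by
    rw [Ne, map_eq_zero]
    exact hg
  have hval : v (algebraMap F K g / Ψ ω ^ μ) = v (algebraMap F K g) - μ * v (Ψ ω) := by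
    rw [ASA_div hv.1 hg0 (pow_ne_zero μ hΨ0), ASA_pow hv.1 hΨ0]
  rw [hval]
  have key := fun b : ℤ => hEHF k F K n Ψ hΨ.2.1 hΨ.2.2 v hv.1 O w hR h2 ω g μ s t b _ hω hg hμ
    hs ht hst
  have hβ : (0 : ℚ) ≤ (if Q.comap (algebraMap R A) = S then 1 else 0) +
      B (Q.comap (algebraMap R A)) := by
    refine add_nonneg ?_ hBP.1
    split_ifs <;> norm_num
  have hμ0 : (0 : ℤ) ≤ μ := Int.natCast_nonneg μ
  have h3 : S ≤ Q.comap (algebraMap R A) →
      (μ : ℤ) * v (algebraMap F K w) ≤ v (algebraMap F K g) - μ * v (Ψ ω) := by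
    intro hSP
    have hPS : Q.comap (algebraMap R A) = S := GHF_eq S _ hB.1 hPp hB.2.1 hP1 hSP
    have h3 := key 1 hβ (by rw [if_pos hPS]; push_cast; linarith [hBP.1])
    rwa [mul_one] at h3
  have hw1 : 1 ≤ v (algebraMap F K w) := hR.2.2.1
  refine ⟨?_, ?_, ?_⟩
  · have h4 := key 0 hβ (by simpa using hβ)
    rwa [mul_zero, zero_mul] at h4
  · intro hSP
    refine le_trans ?_ (h3 hSP)
    nlinarith
  · rintro hSP ⟨q, hq, hqn⟩
    refine le_trans ?_ (h3 hSP)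
    have h5 := hEIP A F K p Q v hQ hv δ hδ q hq hqn w hR.2.1.1
    have h6 : (p : ℤ) ≤ v (algebraMap F K w) := Int.le_of_dvd hR.2.2.1 h5
    nlinarith

end Pool.Agent.VF
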